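import Pool.Agent.Helper18.PS.St2

/-!
# Project PS, module FIQ: the final estimate
-/

set_option autoImplicit false

namespace Pool.Agent.Helper5.PS

open Finset
open Nat (totient)
open Pool.Agent.Helper18.PS
open Filter Topology

private theorem num (C t : ℝ) (hC : 0 < C) (ht : 1 ≤ t)
    (h : t ^ 15 * Real.exp (-(t / 14)) < 1 / (8 * (14 * C + 77))) :
    14 * C * t ^ 2 * Real.exp (-(t / 14)) + Real.exp (-t) + 8 * Real.exp (-(2 * t / 5)) +
      8 * (1 + t ^ 3) ^ 2 * Real.exp (-t) + 4 * (2 + t ^ 3) ^ 2 * Real.exp (-t) ≤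
      1 / (1 + t ^ 3) ^ 3 := by
  have h0 : 0 < t := by linarith
  obtain ⟨E, hE⟩ : ∃ E : ℝ, E = Real.exp (-(t / 14)) := ⟨_, rfl⟩
  have hE0 : 0 < E := by rw [hE]; exact Real.exp_pos _
  have e1 : Real.exp (-t) ≤ E := by
    rw [hE]
    exact Real.exp_le_exp.2 (by linarith)
  have e2 : Real.exp (-(2 * t / 5)) ≤ E := by
    rw [hE]
    exact Real.exp_le_exp.2 (by linarith)
  have p3 : 1 ≤ t ^ 3 := one_le_pow₀ ht
  have p6 : 1 ≤ t ^ 6 := one_le_pow₀ ht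
  have p2 : t ^ 2 ≤ t ^ 6 := pow_le_pow_right₀ ht (by norm_num)
  have q1 : (1 + t ^ 3) ^ 2 ≤ 4 * t ^ 6 := by
    have : (1 + t ^ 3) ^ 2 ≤ (2 * t ^ 3) ^ 2 := pow_le_pow_left₀ (by positivity) (by linarith) 2
    calc (1 + t ^ 3) ^ 2 ≤ (2 * t ^ 3) ^ 2 := this
      _ = 4 * t ^ 6 := by ring
  have q2 : (2 + t ^ 3) ^ 2 ≤ 9 * t ^ 6 := by
    have : (2 + t ^ 3) ^ 2 ≤ (3 * t ^ 3) ^ 2 := pow_le_pow_left₀ (by positivity) (by linarith) 2
    calc (2 + t ^ 3) ^ 2 ≤ (3 * t ^ 3) ^ 2 := this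
      _ = 9 * t ^ 6 := by ring
  have q3 : (1 + t ^ 3) ^ 3 ≤ 8 * t ^ 9 := by
    have : (1 + t ^ 3) ^ 3 ≤ (2 * t ^ 3) ^ 3 := pow_le_pow_left₀ (by positivity) (by linarith) 3
    calc (1 + t ^ 3) ^ 3 ≤ (2 * t ^ 3) ^ 3 := this
      _ = 8 * t ^ 9 := by ring
  have s1 : 14 * C * t ^ 2 * Real.exp (-(t / 14)) ≤ 14 * C * t ^ 6 * E := by
    rw [← hE]
    exact mul_le_mul_of_nonneg_right (mul_le_mul_of_nonneg_left p2 (by positivity)) hE0.le
  have s2 : Real.exp (-t) ≤ t ^ 6 * E := by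
    have := mul_le_mul_of_nonneg_right p6 hE0.le
    linarith
  have s3 : 8 * Real.exp (-(2 * t / 5)) ≤ 8 * t ^ 6 * E := by
    have := mul_le_mul_of_nonneg_right p6 hE0.le
    linarith
  have s4 : 8 * (1 + t ^ 3) ^ 2 * Real.exp (-t) ≤ 32 * t ^ 6 * E := by
    have := mul_le_mul q1 e1 (Real.exp_pos _).le (by positivity)
    linarith
  have s5 : 4 * (2 + t ^ 3) ^ 2 * Real.exp (-t) ≤ 36 * t ^ 6 * E := by
    have := mul_le_mul q2 e1 (Real.exp_pos _).le (by positivity)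
    linarith
  have hsum : 14 * C * t ^ 2 * Real.exp (-(t / 14)) + Real.exp (-t) +
      8 * Real.exp (-(2 * t / 5)) + 8 * (1 + t ^ 3) ^ 2 * Real.exp (-t) +
      4 * (2 + t ^ 3) ^ 2 * Real.exp (-t) ≤ (14 * C + 77) * (t ^ 6 * E) := by
    linarith
  refine hsum.trans ?_
  have hden : 0 < (1 + t ^ 3) ^ 3 := by positivity
  rw [le_div_iff₀ hden]
  rw [← hE, lt_div_iff₀ (by positivity)] at h
  have k1 : (14 * C + 77) * (t ^ 6 * E) * (1 + t ^ 3) ^ 3 ≤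
      (14 * C + 77) * (t ^ 6 * E) * (8 * t ^ 9) :=
    mul_le_mul_of_nonneg_left q3 (by positivity)
  have k2 : (14 * C + 77) * (t ^ 6 * E) * (8 * t ^ 9) = t ^ 15 * E * (8 * (14 * C + 77)) := by
    ring
  linarith

private theorem two_thirds (L : ℕ) (t : ℝ) (hL : 6 * t ≤ L) :
    ((2 : ℝ) / 3) ^ L ≤ Real.exp (-(12 * t / 5)) := by
  have h1 : Real.exp (2 / 5) ≤ 3 / 2 := by
    have h2 : Real.exp (2 / 5) ^ 5 ≤ (3 / 2 : ℝ) ^ 5 := by
      rw [← Real.exp_nat_mul]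
      have h3 : ((5 : ℕ) : ℝ) * (2 / 5) = 1 + 1 := by norm_num
      rw [h3, Real.exp_add]
      have h4 := Real.exp_one_lt_d9
      have h5 := Real.exp_pos 1
      nlinarith
    exact le_of_pow_le_pow_left₀ (by norm_num) (by norm_num) h2
  have h2 : (2 : ℝ) / 3 ≤ Real.exp (-(2 / 5)) := by
    rw [Real.exp_neg, show (2 : ℝ) / 3 = (3 / 2)⁻¹ by norm_num]
    exact inv_anti₀ (Real.exp_pos _) h1
  calc ((2 : ℝ) / 3) ^ L ≤ Real.exp (-(2 / 5)) ^ L := pow_le_pow_left₀ (by norm_num) h2 L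
    _ = Real.exp (L * (-(2 / 5))) := by rw [← Real.exp_nat_mul]
    _ ≤ Real.exp (-(12 * t / 5)) := Real.exp_le_exp.2 (by linarith)

/-- **FIQ.** -/
theorem hFIQ (hC : StCLQ) (h1 : StC1) (h2 : StC2) (h3 : StC3) (h4 : StC4) (h5 : StC5) :
    StFIQ := by
  classical
  obtain ⟨C, hC0, y₀, hS1⟩ := h1
  have hT : Tendsto (fun N : ℕ => Real.log N ^ (1 / 3 : ℝ)) atTop atTop :=
    (tendsto_rpow_atTop (by norm_num)).comp
      (Real.tendsto_log_atTop.comp tendsto_natCast_atTop_atTop)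
  have hE : Tendsto (fun t : ℝ => t ^ 15 * Real.exp (-(t / 14))) atTop (𝓝 0) := by
    have hdiv : Tendsto (fun t : ℝ => t / 14) atTop atTop :=
      tendsto_id.atTop_div_const (by norm_num)
    have h := ((Real.tendsto_pow_mul_exp_neg_atTop_nhds_zero 15).comp hdiv).const_mul
      ((14 : ℝ) ^ 15)
    rw [mul_zero] at h
    refine h.congr fun t => ?_
    simp only [Function.comp]
    rw [div_pow]
    field_simp
  have hev : ∀ᶠ t : ℝ in atTop, t ^ 15 * Real.exp (-(t / 14)) < 1 / (8 * (14 * C + 77)) :=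
    (tendsto_order.1 hE).2 _ (by positivity)
  have hall := hT.eventually (hev.and (eventually_ge_atTop (max 1 (y₀ : ℝ))))
  obtain ⟨N₁, hN₁⟩ := eventually_atTop.1 (hall.and (eventually_ge_atTop 3))
  refine ⟨N₁, fun N hN => ?_⟩
  obtain ⟨⟨hnum, ht2⟩, hN3⟩ := hN₁ N hN
  obtain ⟨t, htdef⟩ : ∃ t : ℝ, t = Real.log N ^ (1 / 3 : ℝ) := ⟨_, rfl⟩
  rw [← htdef] at hnum ht2
  have ht1 : 1 ≤ t := (le_max_left _ _).trans ht2
  have hty : (y₀ : ℝ) ≤ t := (le_max_right _ _).trans ht2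
  have ht0 : 0 < t := by linarith
  have hN1 : 1 ≤ N := by omega
  have hNpos : (0 : ℝ) < N := by exact_mod_cast hN1
  have hlog0 : 0 ≤ Real.log N := Real.log_natCast_nonneg N
  have ht3 : t ^ 3 = Real.log N := by
    rw [htdef, ← Real.rpow_natCast, ← Real.rpow_mul hlog0]
    norm_num
  have ht23 : Real.log N ^ (2 / 3 : ℝ) = t ^ 2 := by
    rw [htdef, ← Real.rpow_natCast, ← Real.rpow_mul hlog0]
    norm_num
  obtain ⟨z, hzdef⟩ : ∃ z : ℕ, z = ⌊Real.exp t⌋₊ := ⟨_, rfl⟩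
  obtain ⟨L, hLdef⟩ : ∃ L : ℕ, L = ⌈6 * t⌉₊ := ⟨_, rfl⟩
  obtain ⟨y, hydef⟩ : ∃ y : ℕ, y = (z + 1) ^ L := ⟨_, rfl⟩
  have het : 2 ≤ Real.exp t := by
    have := Real.add_one_le_exp t
    linarith
  have hz2 : 2 ≤ z := by
    rw [hzdef]
    exact Nat.le_floor (by exact_mod_cast het)
  have hz1 : Real.exp t < (z : ℝ) + 1 := by
    rw [hzdef]
    exact Nat.lt_floor_add_one _
  have hzle : (z : ℝ) ≤ Real.exp t := by
    rw [hzdef]
    exact Nat.floor_le (Real.exp_pos t).le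
  have hzhalf : Real.exp t / 2 ≤ z := by linarith
  have hz0 : (0 : ℝ) < z := by
    have : (2 : ℝ) ≤ z := by exact_mod_cast hz2
    linarith
  have hL6 : 6 * t ≤ L := by
    rw [hLdef]
    exact Nat.le_ceil _
  have hL7 : (L : ℝ) ≤ 6 * t + 1 := by
    rw [hLdef]
    exact (Nat.ceil_lt_add_one (by positivity)).le
  have hyexp : Real.exp (6 * t ^ 2) ≤ y := by
    rw [hydef]
    push_cast
    calc Real.exp (6 * t ^ 2) ≤ Real.exp (L * t) := by
          apply Real.exp_le_exp.2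
          have := mul_le_mul_of_nonneg_right hL6 ht0.le
          linarith
      _ = Real.exp t ^ L := by rw [Real.exp_nat_mul]
      _ ≤ ((z : ℝ) + 1) ^ L := pow_le_pow_left₀ (Real.exp_pos t).le hz1.le L
  have hyt : Real.exp t ≤ y := by
    refine le_trans (Real.exp_le_exp.2 ?_) hyexp
    nlinarith
  have hyy : y₀ ≤ y := by
    have : (y₀ : ℝ) ≤ y := by
      have := Real.add_one_le_exp t
      linarith
    exact_mod_cast this
  have hy0 : (0 : ℝ) < y := lt_of_lt_of_le (Real.exp_pos t) hyt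
  have hy1 : 1 ≤ y := by exact_mod_cast hy0
  have hYle : Real.exp (Real.log N ^ (2 / 3 : ℝ)) ≤ (y : ℝ) + 1 := by
    rw [ht23]
    have : Real.exp (t ^ 2) ≤ Real.exp (6 * t ^ 2) := Real.exp_le_exp.2 (by nlinarith)
    linarith
  have hlogy : Real.log y ≤ 14 * t ^ 2 := by
    have a1 : Real.log ((z : ℝ) + 1) ≤ t + 1 := by
      have b1 : (z : ℝ) + 1 ≤ Real.exp (t + 1) := by
        rw [Real.exp_add]
        have b2 := Real.exp_one_gt_d9
        have b3 := Real.exp_pos t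
        nlinarith
      calc Real.log ((z : ℝ) + 1) ≤ Real.log (Real.exp (t + 1)) :=
            Real.log_le_log (by positivity) b1
        _ = t + 1 := Real.log_exp _
    rw [hydef]
    push_cast
    rw [Real.log_pow]
    calc (L : ℝ) * Real.log ((z : ℝ) + 1) ≤ (6 * t + 1) * (t + 1) :=
          mul_le_mul hL7 a1 (Real.log_nonneg (by linarith)) (by positivity)
      _ ≤ 14 * t ^ 2 := by nlinarith
  have hlogy0 : 0 < Real.log y := by
    have a1 : t ≤ Real.log y := by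
      rw [Real.le_log_iff_exp_le hy0]
      exact hyt
    linarith
  -- the covering
  have hsub : ((Icc 1 N).filter (fun n => Sol n ∧
      ¬ PrY (Real.exp (Real.log N ^ (2 / 3 : ℝ))) n)) ⊆
      (((((Icc 1 N).filter (fun n => ∀ l : ℕ, l.Prime → l ∣ n → l ≤ y)) ∪
      ((Icc 1 N).filter (fun n => ∃ p : ℕ, p.Prime ∧ y < p ∧ p ^ 2 ∣ n))) ∪
      ((Icc 1 N).filter (fun n => ∃ p : ℕ, p.Prime ∧ y < p ∧ p ∣ n ∧
        ∀ r : ℕ, r.Prime → r ∣ p + 1 → r ≤ z))) ∪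
      ((Icc 1 N).filter (fun n => (∃ p q r : ℕ, p.Prime ∧ q.Prime ∧ r.Prime ∧ z < r ∧
        r ∣ p + 1 ∧ r ∣ q - 1 ∧ p * q ∣ n) ∨
        ∃ p r : ℕ, p.Prime ∧ r.Prime ∧ z < r ∧ r ∣ p + 1 ∧ p * r ^ 2 ∣ n))) ∪
      ((Icc 1 N).filter (fun n => E5 z n)) := by
    intro n hn
    obtain ⟨hnI, hnS, hnP⟩ := mem_filter.1 hn
    have hn1 : 1 ≤ n := (mem_Icc.1 hnI).1
    rcases hC y z n hz2 hn1 hnS with k | k | k | k | k | k
    · exfalso
      apply hnP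
      obtain ⟨m, p, q, a1, a2, a3, a4, a5, a6⟩ := k
      exact ⟨m, p, q, a1, a2, a3, a4, a5, hYle.trans a6⟩
    · exact mem_union_left _ (mem_union_left _ (mem_union_left _ (mem_union_left _
        (mem_filter.2 ⟨hnI, k⟩))))
    · exact mem_union_left _ (mem_union_left _ (mem_union_left _ (mem_union_right _
        (mem_filter.2 ⟨hnI, k⟩))))
    · exact mem_union_left _ (mem_union_left _ (mem_union_right _ (mem_filter.2 ⟨hnI, k⟩)))
    · exact mem_union_left _ (mem_union_right _ (mem_filter.2 ⟨hnI, k⟩))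
    · exact mem_union_right _ (mem_filter.2 ⟨hnI, k⟩)
  have hcard := card_le_card hsub
  have u1 := card_union_le
    (((((Icc 1 N).filter (fun n => ∀ l : ℕ, l.Prime → l ∣ n → l ≤ y)) ∪
      ((Icc 1 N).filter (fun n => ∃ p : ℕ, p.Prime ∧ y < p ∧ p ^ 2 ∣ n))) ∪
      ((Icc 1 N).filter (fun n => ∃ p : ℕ, p.Prime ∧ y < p ∧ p ∣ n ∧
        ∀ r : ℕ, r.Prime → r ∣ p + 1 → r ≤ z))) ∪
      ((Icc 1 N).filter (fun n => (∃ p q r : ℕ, p.Prime ∧ q.Prime ∧ r.Prime ∧ z < r ∧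
        r ∣ p + 1 ∧ r ∣ q - 1 ∧ p * q ∣ n) ∨
        ∃ p r : ℕ, p.Prime ∧ r.Prime ∧ z < r ∧ r ∣ p + 1 ∧ p * r ^ 2 ∣ n)))
    ((Icc 1 N).filter (fun n => E5 z n))
  have u2 := card_union_le
    ((((Icc 1 N).filter (fun n => ∀ l : ℕ, l.Prime → l ∣ n → l ≤ y)) ∪
      ((Icc 1 N).filter (fun n => ∃ p : ℕ, p.Prime ∧ y < p ∧ p ^ 2 ∣ n))) ∪
      ((Icc 1 N).filter (fun n => ∃ p : ℕ, p.Prime ∧ y < p ∧ p ∣ n ∧
        ∀ r : ℕ, r.Prime → r ∣ p + 1 → r ≤ z)))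
    ((Icc 1 N).filter (fun n => (∃ p q r : ℕ, p.Prime ∧ q.Prime ∧ r.Prime ∧ z < r ∧
        r ∣ p + 1 ∧ r ∣ q - 1 ∧ p * q ∣ n) ∨
        ∃ p r : ℕ, p.Prime ∧ r.Prime ∧ z < r ∧ r ∣ p + 1 ∧ p * r ^ 2 ∣ n))
  have u3 := card_union_le
    (((Icc 1 N).filter (fun n => ∀ l : ℕ, l.Prime → l ∣ n → l ≤ y)) ∪
      ((Icc 1 N).filter (fun n => ∃ p : ℕ, p.Prime ∧ y < p ∧ p ^ 2 ∣ n)))
    ((Icc 1 N).filter (fun n => ∃ p : ℕ, p.Prime ∧ y < p ∧ p ∣ n ∧
        ∀ r : ℕ, r.Prime → r ∣ p + 1 → r ≤ z))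
  have u4 := card_union_le
    ((Icc 1 N).filter (fun n => ∀ l : ℕ, l.Prime → l ∣ n → l ≤ y))
    ((Icc 1 N).filter (fun n => ∃ p : ℕ, p.Prime ∧ y < p ∧ p ^ 2 ∣ n))
  have b1 := hS1 y N hyy hN1
  have b2 := h2 y N hy1
  have b3 := h3 y z L N (by omega) (by rw [hydef])
  have b4 := h4 z N (by omega) hN1
  have b5 := h5 z N (by omega) hN1
  -- numerical bounds
  have c1 : C * N * Real.log y * Real.exp (-(Real.log N / Real.log y)) ≤
      N * (14 * C * t ^ 2 * Real.exp (-(t / 14))) := by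
    have d1 : Real.exp (-(Real.log N / Real.log y)) ≤ Real.exp (-(t / 14)) := by
      apply Real.exp_le_exp.2
      apply neg_le_neg
      rw [div_le_div_iff₀ (by norm_num) hlogy0, ← ht3]
      calc t * Real.log y ≤ t * (14 * t ^ 2) := mul_le_mul_of_nonneg_left hlogy ht0.le
        _ = t ^ 3 * 14 := by ring
    have d2 : C * N * Real.log y ≤ C * N * (14 * t ^ 2) :=
      mul_le_mul_of_nonneg_left hlogy (by positivity)
    calc C * N * Real.log y * Real.exp (-(Real.log N / Real.log y))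
        ≤ C * N * (14 * t ^ 2) * Real.exp (-(t / 14)) :=
          mul_le_mul d2 d1 (Real.exp_pos _).le (by positivity)
      _ = N * (14 * C * t ^ 2 * Real.exp (-(t / 14))) := by ring
  have c2 : (N : ℝ) / y ≤ N * Real.exp (-t) := by
    rw [Real.exp_neg, ← div_eq_mul_inv]
    exact div_le_div_of_nonneg_left hNpos.le (Real.exp_pos t) hyt
  have c3 : 2 * (N : ℝ) * (((z : ℝ) + 1) ^ 2 * (2 / 3) ^ L) ≤
      N * (8 * Real.exp (-(2 * t / 5))) := by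
    have d1 : ((z : ℝ) + 1) ^ 2 ≤ (2 * Real.exp t) ^ 2 :=
      pow_le_pow_left₀ (by positivity) (by linarith) 2
    have d2 := two_thirds L t hL6
    have d3 : ((z : ℝ) + 1) ^ 2 * (2 / 3) ^ L ≤
        (2 * Real.exp t) ^ 2 * Real.exp (-(12 * t / 5)) :=
      mul_le_mul d1 d2 (by positivity) (by positivity)
    have d4 : (2 * Real.exp t) ^ 2 * Real.exp (-(12 * t / 5)) = 4 * Real.exp (-(2 * t / 5)) := by
      rw [mul_pow, ← Real.exp_nat_mul, mul_assoc, ← Real.exp_add]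
      norm_num
      ring
    rw [d4] at d3
    have := mul_le_mul_of_nonneg_left d3 (by positivity : (0 : ℝ) ≤ 2 * N)
    linarith
  have hinvz : 1 / (z : ℝ) ≤ 2 * Real.exp (-t) := by
    rw [div_le_iff₀ hz0, Real.exp_neg]
    have := Real.exp_pos t
    field_simp
    linarith
  have c4 : 4 * (N : ℝ) * (1 + Real.log N) ^ 2 / z ≤ N * (8 * (1 + t ^ 3) ^ 2 * Real.exp (-t)) := by
    rw [← ht3]
    calc 4 * (N : ℝ) * (1 + t ^ 3) ^ 2 / z = 4 * (N : ℝ) * (1 + t ^ 3) ^ 2 * (1 / z) := by ring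
      _ ≤ 4 * (N : ℝ) * (1 + t ^ 3) ^ 2 * (2 * Real.exp (-t)) :=
        mul_le_mul_of_nonneg_left hinvz (by positivity)
      _ = N * (8 * (1 + t ^ 3) ^ 2 * Real.exp (-t)) := by ring
  have c5 : 2 * (N : ℝ) / z * (1 + Real.log (2 * N)) ^ 2 ≤
      N * (4 * (2 + t ^ 3) ^ 2 * Real.exp (-t)) := by
    have d1 : Real.log (2 * N) ≤ 1 + t ^ 3 := by
      rw [Real.log_mul (by norm_num) hNpos.ne', ht3]
      have := Real.log_two_lt_d9
      linarith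
    have d0 : 0 ≤ Real.log (2 * N) := Real.log_nonneg (by
      have : (1 : ℝ) ≤ N := by exact_mod_cast hN1
      linarith)
    have d2 : (1 + Real.log (2 * N)) ^ 2 ≤ (2 + t ^ 3) ^ 2 :=
      pow_le_pow_left₀ (by positivity) (by linarith) 2
    have d3 : 2 * (N : ℝ) / z ≤ 2 * N * (2 * Real.exp (-t)) := by
      calc 2 * (N : ℝ) / z = 2 * N * (1 / z) := by ring
        _ ≤ _ := mul_le_mul_of_nonneg_left hinvz (by positivity)
    calc 2 * (N : ℝ) / z * (1 + Real.log (2 * N)) ^ 2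
        ≤ 2 * N * (2 * Real.exp (-t)) * (2 + t ^ 3) ^ 2 :=
          mul_le_mul d3 d2 (by positivity) (by positivity)
      _ = N * (4 * (2 + t ^ 3) ^ 2 * Real.exp (-t)) := by ring
  have hfin := mul_le_mul_of_nonneg_left (num C t hC0 ht1 hnum) hNpos.le
  have hgoal : (N : ℝ) / (1 + Real.log N) ^ 3 = N * (1 / (1 + t ^ 3) ^ 3) := by
    rw [ht3]
    ring
  rw [hgoal]
  refine le_trans ?_ hfin
  have hcardR : ((((Icc 1 N).filter (fun n => Sol n ∧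
      ¬ PrY (Real.exp (Real.log N ^ (2 / 3 : ℝ))) n)).card : ℕ) : ℝ) ≤
      (((Icc 1 N).filter (fun n => ∀ l : ℕ, l.Prime → l ∣ n → l ≤ y)).card : ℝ) +
      (((Icc 1 N).filter (fun n => ∃ p : ℕ, p.Prime ∧ y < p ∧ p ^ 2 ∣ n)).card : ℝ) +
      (((Icc 1 N).filter (fun n => ∃ p : ℕ, p.Prime ∧ y < p ∧ p ∣ n ∧
        ∀ r : ℕ, r.Prime → r ∣ p + 1 → r ≤ z)).card : ℝ) +
      (((Icc 1 N).filter (fun n => (∃ p q r : ℕ, p.Prime ∧ q.Prime ∧ r.Prime ∧ z < r ∧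
        r ∣ p + 1 ∧ r ∣ q - 1 ∧ p * q ∣ n) ∨
        ∃ p r : ℕ, p.Prime ∧ r.Prime ∧ z < r ∧ r ∣ p + 1 ∧ p * r ^ 2 ∣ n)).card : ℝ) +
      (((Icc 1 N).filter (fun n => E5 z n)).card : ℝ) := by
    have := hcard.trans (u1.trans (Nat.add_le_add_right (u2.trans (Nat.add_le_add_right
      (u3.trans (Nat.add_le_add_right u4 _)) _)) _))
    exact_mod_cast this
  have hdist : (N : ℝ) * (14 * C * t ^ 2 * Real.exp (-(t / 14)) + Real.exp (-t) +
      8 * Real.exp (-(2 * t / 5)) + 8 * (1 + t ^ 3) ^ 2 * Real.exp (-t) +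
      4 * (2 + t ^ 3) ^ 2 * Real.exp (-t)) =
      N * (14 * C * t ^ 2 * Real.exp (-(t / 14))) + N * Real.exp (-t) +
      N * (8 * Real.exp (-(2 * t / 5))) + N * (8 * (1 + t ^ 3) ^ 2 * Real.exp (-t)) +
      N * (4 * (2 + t ^ 3) ^ 2 * Real.exp (-t)) := by ring
  rw [hdist]
  linarith

end Pool.Agent.Helper5.PS
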