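import Pool.Agent.Helper18.PS.St3

/-!
# Project PS, module SU3: a numerical sum with exponent two

Adapted from `Pool/Agent/Helper7/PS/M_SUM.lean`.
-/

set_option autoImplicit false

noncomputable section

namespace Pool.Agent.Helper5.PS3

open Finset Filter
open Pool.Agent.Helper18.PS

private lemma tele (a : ℝ) (ha : 1 ≤ a) (K : ℕ) :
    ∑ j ∈ range K, ((a + (j : ℝ)) ^ 2)⁻¹ ≤ 2 / a - 2 / (a + K) := by
  induction K with
  | zero => simp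
  | succ K ih =>
    rw [sum_range_succ]
    have hK : (0 : ℝ) ≤ K := Nat.cast_nonneg K
    have h1 : ((a + (K : ℝ)) ^ 2)⁻¹ ≤ 2 / (a + K) - 2 / (a + ((K + 1 : ℕ) : ℝ)) := by
      push_cast
      have hp : 0 < a + (K : ℝ) := by linarith
      have hp2 : 0 < a + ((K : ℝ) + 1) := by linarith
      rw [div_sub_div _ _ hp.ne' hp2.ne', inv_eq_one_div, div_le_div_iff₀ (by positivity)
        (by positivity)]
      nlinarith
    linarith

theorem hSU3 : StSU3 := by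
  refine ⟨40, by norm_num, fun M hM => ?_⟩
  have hev : ∀ᶠ N : ℕ in atTop, 1 + Real.log M ≤ Real.log N ^ (2 / 3 : ℝ) :=
    ((tendsto_rpow_atTop (by norm_num : (0 : ℝ) < 2 / 3)).comp
      (Real.tendsto_log_atTop.comp tendsto_natCast_atTop_atTop)).eventually_ge_atTop _
  obtain ⟨N₀, hN₀⟩ := eventually_atTop.1 hev
  refine ⟨N₀, fun N hN => ?_⟩
  have hbig := hN₀ N hN
  set L := Real.log N with hL
  have hL0 : 0 ≤ L := Real.log_natCast_nonneg N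
  have hM0 : 0 ≤ Real.log M := Real.log_natCast_nonneg M
  set a := 1 + Real.log M with ha
  have ha1 : 1 ≤ a := by linarith
  have hlog2 : 1 / 2 ≤ Real.log 2 := by
    have := Real.log_two_gt_d9
    linarith
  have hlog2' : Real.log 2 ≤ 1 := by
    have := Real.log_two_lt_d9
    linarith
  have hlog2p : 0 < Real.log 2 := by linarith
  set F := (range (N + 1)).filter (fun k : ℕ =>
    Real.exp (L ^ (2 / 3 : ℝ)) ≤ 2 ^ (k + 1) ∧ M * 2 ^ k ≤ N) with hF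
  have hF1 : ∀ k ∈ F, L ^ (2 / 3 : ℝ) ≤ (k : ℝ) + 1 := by
    intro k hk
    rw [hF, mem_filter] at hk
    have h1 := Real.log_le_log (Real.exp_pos _) hk.2.1
    rw [Real.log_exp, Real.log_pow] at h1
    push_cast at h1
    have : ((k : ℝ) + 1) * Real.log 2 ≤ ((k : ℝ) + 1) * 1 :=
      mul_le_mul_of_nonneg_left hlog2' (by positivity)
    linarith
  have hF2 : ∀ k ∈ F, (k : ℝ) * Real.log 2 ≤ L - Real.log M := by
    intro k hk
    rw [hF, mem_filter] at hk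
    have hMp : (0 : ℝ) < M := by exact_mod_cast hM
    have h2 : (M : ℝ) * (2 : ℝ) ^ k ≤ N := by exact_mod_cast hk.2.2
    have h1 := Real.log_le_log (by positivity) h2
    rw [Real.log_mul hMp.ne' (by positivity), Real.log_pow] at h1
    linarith
  set m := ⌊(L - Real.log M) / Real.log 2⌋₊ with hm
  have hm2 : ∀ k ∈ F, k ≤ m := by
    intro k hk
    apply Nat.le_floor
    rw [le_div_iff₀ hlog2p]
    exact hF2 k hk
  have hm1 : ∀ k ∈ F, (m : ℝ) * Real.log 2 ≤ L - Real.log M := by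
    intro k hk
    have h0 := hF2 k hk
    have h1 : 0 ≤ L - Real.log M :=
      le_trans (mul_nonneg (Nat.cast_nonneg _) hlog2p.le) h0
    have := Nat.floor_le (show 0 ≤ (L - Real.log M) / Real.log 2 by positivity)
    rwa [← hm, le_div_iff₀ hlog2p] at this
  have hterm : ∀ k ∈ F, 1 / ((1 + L - k * Real.log 2) ^ 2 * (1 + (k : ℝ)) ^ 2) ≤
      4 * ((1 + L) ^ 2)⁻¹ * ((((k + 1 : ℕ) : ℝ)) ^ 2)⁻¹ +
        16 * ((1 + L) ^ 2)⁻¹ * ((a + ((m - k : ℕ) : ℝ)) ^ 2)⁻¹ := by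
    intro k hk
    have hkL := hF2 k hk
    have hkm := hm2 k hk
    have hmL := hm1 k hk
    have hcast : (((k + 1 : ℕ) : ℝ)) = 1 + (k : ℝ) := by
      push_cast
      ring
    rw [hcast]
    have hkp : 0 < 1 + (k : ℝ) := by positivity
    have hLp : 0 < 1 + L := by linarith
    have hu : 1 ≤ 1 + L - k * Real.log 2 := by linarith
    have e0 : 1 / ((1 + L - k * Real.log 2) ^ 2 * (1 + (k : ℝ)) ^ 2) =
        ((1 + L - k * Real.log 2) ^ 2)⁻¹ * ((1 + (k : ℝ)) ^ 2)⁻¹ := by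
      rw [one_div, mul_inv]
    rw [e0]
    by_cases hc : (k : ℝ) * Real.log 2 ≤ L / 2
    · have h1 : ((1 + L) / 2) ^ 2 ≤ (1 + L - k * Real.log 2) ^ 2 :=
        pow_le_pow_left₀ (by linarith) (by linarith) 2
      have h2 : ((1 + L - k * Real.log 2) ^ 2)⁻¹ ≤ 4 * ((1 + L) ^ 2)⁻¹ := by
        calc ((1 + L - k * Real.log 2) ^ 2)⁻¹ ≤ (((1 + L) / 2) ^ 2)⁻¹ :=
              inv_anti₀ (by positivity) h1
          _ = 4 * ((1 + L) ^ 2)⁻¹ := by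
              field_simp
              norm_num
      have h3 : ((1 + L - k * Real.log 2) ^ 2)⁻¹ * ((1 + (k : ℝ)) ^ 2)⁻¹ ≤
          4 * ((1 + L) ^ 2)⁻¹ * ((1 + (k : ℝ)) ^ 2)⁻¹ :=
        mul_le_mul_of_nonneg_right h2 (by positivity)
      have h4 : 0 ≤ 16 * ((1 + L) ^ 2)⁻¹ * ((a + ((m - k : ℕ) : ℝ)) ^ 2)⁻¹ := by positivity
      linarith
    · have hc' : L / 2 < (k : ℝ) * Real.log 2 := not_le.1 hc
      have h1 : (k : ℝ) * Real.log 2 ≤ (k : ℝ) * 1 :=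
        mul_le_mul_of_nonneg_left hlog2' (Nat.cast_nonneg _)
      have h2 : (1 + L) / 2 ≤ 1 + (k : ℝ) := by linarith
      have h3 : ((1 + (k : ℝ)) ^ 2)⁻¹ ≤ 4 * ((1 + L) ^ 2)⁻¹ := by
        have h4 : ((1 + L) / 2) ^ 2 ≤ (1 + (k : ℝ)) ^ 2 :=
          pow_le_pow_left₀ (by linarith) h2 2
        calc ((1 + (k : ℝ)) ^ 2)⁻¹ ≤ (((1 + L) / 2) ^ 2)⁻¹ :=
              inv_anti₀ (by positivity) h4
          _ = 4 * ((1 + L) ^ 2)⁻¹ := by
              field_simp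
              norm_num
      have h5 : (a + ((m - k : ℕ) : ℝ)) / 2 ≤ 1 + L - k * Real.log 2 := by
        rw [Nat.cast_sub hkm]
        have h6 : (0 : ℝ) ≤ (m : ℝ) - k := by
          have : (k : ℝ) ≤ m := by exact_mod_cast hkm
          linarith
        have h7 : ((m : ℝ) - k) * (1 / 2) ≤ ((m : ℝ) - k) * Real.log 2 :=
          mul_le_mul_of_nonneg_left hlog2 h6
        rw [ha]
        linarith
      have hap : 0 < a + ((m - k : ℕ) : ℝ) := by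
        have : (0 : ℝ) ≤ ((m - k : ℕ) : ℝ) := Nat.cast_nonneg _
        linarith
      have h8 : ((1 + L - k * Real.log 2) ^ 2)⁻¹ ≤ 4 * ((a + ((m - k : ℕ) : ℝ)) ^ 2)⁻¹ := by
        have h9 : ((a + ((m - k : ℕ) : ℝ)) / 2) ^ 2 ≤ (1 + L - k * Real.log 2) ^ 2 :=
          pow_le_pow_left₀ (by linarith) h5 2
        calc ((1 + L - k * Real.log 2) ^ 2)⁻¹ ≤ (((a + ((m - k : ℕ) : ℝ)) / 2) ^ 2)⁻¹ :=
              inv_anti₀ (by positivity) h9
          _ = 4 * ((a + ((m - k : ℕ) : ℝ)) ^ 2)⁻¹ := by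
              field_simp
              norm_num
      have h9 : ((1 + L - k * Real.log 2) ^ 2)⁻¹ * ((1 + (k : ℝ)) ^ 2)⁻¹ ≤
          16 * ((1 + L) ^ 2)⁻¹ * ((a + ((m - k : ℕ) : ℝ)) ^ 2)⁻¹ := by
        calc ((1 + L - k * Real.log 2) ^ 2)⁻¹ * ((1 + (k : ℝ)) ^ 2)⁻¹
            ≤ (4 * ((a + ((m - k : ℕ) : ℝ)) ^ 2)⁻¹) * (4 * ((1 + L) ^ 2)⁻¹) :=
              mul_le_mul h8 h3 (by positivity) (by positivity)
          _ = _ := by ring
      have h10 : 0 ≤ 4 * ((1 + L) ^ 2)⁻¹ * ((1 + (k : ℝ)) ^ 2)⁻¹ := by positivity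
      linarith
  -- the first sum
  obtain ⟨K1, hK1⟩ : ∃ K1, ⌈a⌉₊ = K1 + 1 := by
    refine ⟨⌈a⌉₊ - 1, ?_⟩
    have : 0 < ⌈a⌉₊ := Nat.ceil_pos.2 (by linarith)
    omega
  have hsum1 : ∑ k ∈ F, ((((k + 1 : ℕ) : ℝ)) ^ 2)⁻¹ ≤ 2 / a := by
    have h1 : ∑ k ∈ F, ((((k + 1 : ℕ) : ℝ)) ^ 2)⁻¹ =
        ∑ i ∈ F.image (fun k => k + 1), (((i : ℕ) : ℝ) ^ 2)⁻¹ := by
      rw [sum_image]
      intro x _ y _ h
      simpa using h
    have h2 : F.image (fun k => k + 1) ⊆ Ioo K1 (N + 2) := by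
      intro i hi
      rw [mem_image] at hi
      obtain ⟨k, hk, rfl⟩ := hi
      rw [mem_Ioo]
      have h3 : a ≤ ((k + 1 : ℕ) : ℝ) := by
        push_cast
        exact hbig.trans (hF1 k hk)
      have h4 : ⌈a⌉₊ ≤ k + 1 := Nat.ceil_le.2 h3
      rw [hF, mem_filter, mem_range] at hk
      omega
    have h5 := sum_Ioo_inv_sq_le (α := ℝ) K1 (N + 2)
    have h6 : a ≤ (K1 : ℝ) + 1 := by
      have := Nat.le_ceil a
      rw [hK1] at this
      push_cast at this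
      exact this
    rw [h1]
    calc ∑ i ∈ F.image (fun k => k + 1), (((i : ℕ) : ℝ) ^ 2)⁻¹
        ≤ ∑ i ∈ Ioo K1 (N + 2), (((i : ℕ) : ℝ) ^ 2)⁻¹ :=
          sum_le_sum_of_subset_of_nonneg h2 (fun i _ _ => by positivity)
      _ ≤ 2 / ((K1 : ℝ) + 1) := h5
      _ ≤ 2 / a := div_le_div_of_nonneg_left (by norm_num) (by linarith) h6
  have hsum2 : ∑ k ∈ F, ((a + ((m - k : ℕ) : ℝ)) ^ 2)⁻¹ ≤ 2 / a := by
    have h1 : F ⊆ range (m + 1) := by
      intro k hk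
      rw [mem_range]
      have := hm2 k hk
      omega
    calc ∑ k ∈ F, ((a + ((m - k : ℕ) : ℝ)) ^ 2)⁻¹
        ≤ ∑ k ∈ range (m + 1), ((a + ((m - k : ℕ) : ℝ)) ^ 2)⁻¹ :=
          sum_le_sum_of_subset_of_nonneg h1 (fun i _ _ => by positivity)
      _ = ∑ j ∈ range (m + 1), ((a + (j : ℝ)) ^ 2)⁻¹ := by
          have := sum_range_reflect (fun j : ℕ => ((a + (j : ℝ)) ^ 2)⁻¹) (m + 1)
          rw [← this]
          refine sum_congr rfl fun k _ => ?_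
          rfl
      _ ≤ 2 / a - 2 / (a + ((m + 1 : ℕ) : ℝ)) := tele a ha1 (m + 1)
      _ ≤ 2 / a := by
          have : 0 ≤ 2 / (a + ((m + 1 : ℕ) : ℝ)) := by positivity
          linarith
  have hA2 : 0 ≤ ((1 + L) ^ 2)⁻¹ := by positivity
  calc ∑ k ∈ F, 1 / ((1 + L - k * Real.log 2) ^ 2 * (1 + (k : ℝ)) ^ 2)
      ≤ ∑ k ∈ F, (4 * ((1 + L) ^ 2)⁻¹ * ((((k + 1 : ℕ) : ℝ)) ^ 2)⁻¹ +
        16 * ((1 + L) ^ 2)⁻¹ * ((a + ((m - k : ℕ) : ℝ)) ^ 2)⁻¹) := sum_le_sum hterm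
    _ = 4 * ((1 + L) ^ 2)⁻¹ * ∑ k ∈ F, ((((k + 1 : ℕ) : ℝ)) ^ 2)⁻¹ +
        16 * ((1 + L) ^ 2)⁻¹ * ∑ k ∈ F, ((a + ((m - k : ℕ) : ℝ)) ^ 2)⁻¹ := by
        rw [sum_add_distrib, mul_sum, mul_sum]
    _ ≤ 4 * ((1 + L) ^ 2)⁻¹ * (2 / a) + 16 * ((1 + L) ^ 2)⁻¹ * (2 / a) :=
        add_le_add (mul_le_mul_of_nonneg_left hsum1 (by positivity))
          (mul_le_mul_of_nonneg_left hsum2 (by positivity))
    _ = 40 / (a * (1 + L) ^ 2) := by
        have h1 : a ≠ 0 := by linarith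
        have h2 : (1 + L) ≠ 0 := by linarith
        field_simp
        ring

end Pool.Agent.Helper5.PS3
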